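import Mathlib

namespace Pool.Agent.Results.MP_22e672_co.CubeDisproof

/-- `P` is a `d`-dimensional convex polytope in Euclidean `d`-space: the convex hull of finitely
many points, with nonempty interior. -/
def IsPolytope {d : ℕ} (P : Set (EuclideanSpace ℝ (Fin d))) : Prop :=
  (∃ V : Set (EuclideanSpace ℝ (Fin d)), V.Finite ∧ P = convexHull ℝ V) ∧ (interior P).Nonempty

/-- `F` is a face of `P`: either `P` itself, or the intersection of `P` with a supporting
hyperplane `{x | f x = c}`. -/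
def IsFace {d : ℕ} (P F : Set (EuclideanSpace ℝ (Fin d))) : Prop :=
  F = P ∨ ∃ (f : EuclideanSpace ℝ (Fin d) →ₗ[ℝ] ℝ) (c : ℝ), f ≠ 0 ∧ (∀ x ∈ P, f x ≤ c) ∧
    (∃ x ∈ P, f x = c) ∧ F = {x | x ∈ P ∧ f x = c}

/-- The affine hull of `F` has dimension `i`. -/
def HasDim {d : ℕ} (F : Set (EuclideanSpace ℝ (Fin d))) (i : ℕ) : Prop :=
  Module.finrank ℝ (affineSpan ℝ F).direction = i

/-- `X i P`: the boundary points of `P` that lie in no `i`-dimensional face of `P`. -/
def X {d : ℕ} (i : ℕ) (P : Set (EuclideanSpace ℝ (Fin d))) : Set (EuclideanSpace ℝ (Fin d)) :=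
  {b | b ∈ frontier P ∧ ∀ F, IsFace P F → HasDim F i → b ∉ F}

/-- The boundary point `b` of `P` is illuminated by `s`: the ray from `s` through `b` meets the
interior of `P`, and the closed segment from `s` to `b` contains no point of `P` except `b`. -/
def Illuminates {d : ℕ} (P : Set (EuclideanSpace ℝ (Fin d))) (s b : EuclideanSpace ℝ (Fin d)) :
    Prop :=
  (∃ t : ℝ, 0 ≤ t ∧ s + t • (b - s) ∈ interior P) ∧ segment ℝ s b ∩ P = {b}

/-- The cube `[-1,1]^d`. -/
def cube (d : ℕ) : Set (EuclideanSpace ℝ (Fin d)) := {x | ∀ j, |x j| ≤ 1}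

lemma isOpen_openCube (d : ℕ) : IsOpen {x : EuclideanSpace ℝ (Fin d) | ∀ j, |x j| < 1} := by
  have : {x : EuclideanSpace ℝ (Fin d) | ∀ j, |x j| < 1} = ⋂ j, {x | |x j| < 1} := by
    ext x; simp
  rw [this]
  refine isOpen_iInter_of_finite fun j => ?_
  exact isOpen_lt (by fun_prop) continuous_const

lemma mem_interior_of {d : ℕ} {x : EuclideanSpace ℝ (Fin d)} (h : ∀ j, |x j| < 1) :
    x ∈ interior (cube d) := by
  rw [mem_interior]
  exact ⟨{x | ∀ j, |x j| < 1}, fun y hy j => (hy j).le, isOpen_openCube d, h⟩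

lemma abs_lt_of_mem_interior {d : ℕ} {y : EuclideanSpace ℝ (Fin d)} (h : y ∈ interior (cube d))
    (j : Fin d) : |y j| < 1 := by
  -- move in the direction `e_j`
  have hc : Continuous fun r : ℝ => y + r • EuclideanSpace.single j (1 : ℝ) := by fun_prop
  have ho : IsOpen ((fun r : ℝ => y + r • EuclideanSpace.single j (1 : ℝ)) ⁻¹' interior (cube d)) :=
    isOpen_interior.preimage hc
  have h0 : (0 : ℝ) ∈ (fun r : ℝ => y + r • EuclideanSpace.single j (1 : ℝ)) ⁻¹' interior (cube d) := by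
    simpa using h
  obtain ⟨ε, hε, hb⟩ := Metric.isOpen_iff.1 ho 0 h0
  have h1 : (ε / 2) ∈ Metric.ball (0 : ℝ) ε := by
    simp only [Metric.mem_ball, dist_zero_right, Real.norm_eq_abs]
    rw [abs_of_pos (by linarith)]; linarith
  have h2 : (-(ε / 2)) ∈ Metric.ball (0 : ℝ) ε := by
    simp only [Metric.mem_ball, dist_zero_right, Real.norm_eq_abs, abs_neg]
    rw [abs_of_pos (by linarith)]; linarith
  have k1 : |(y + (ε / 2) • EuclideanSpace.single j (1 : ℝ)) j| ≤ 1 := interior_subset (hb h1) j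
  have k2 : |(y + (-(ε / 2)) • EuclideanSpace.single j (1 : ℝ)) j| ≤ 1 := interior_subset (hb h2) j
  simp at k1 k2
  rw [abs_le] at k1 k2
  rw [abs_lt]
  constructor <;> linarith [k1.1, k1.2, k2.1, k2.2]

lemma cube_eq_hull (d : ℕ) :
    cube d = convexHull ℝ {x : EuclideanSpace ℝ (Fin d) | ∀ j, x j = -1 ∨ x j = 1} := by
  let e : EuclideanSpace ℝ (Fin d) ≃ₗ[ℝ] (Fin d → ℝ) := (EuclideanSpace.equiv (Fin d) ℝ).toLinearEquiv
  have he : ∀ x j, e x j = x j := fun x j => rfl
  have h1 : e '' cube d = Set.pi Set.univ (fun _ : Fin d => convexHull ℝ ({-1, 1} : Set ℝ)) := by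
    ext y
    simp only [Set.mem_image, Set.mem_pi, Set.mem_univ, true_imp_iff, convexHull_pair,
      segment_eq_Icc (show (-1 : ℝ) ≤ 1 by norm_num)]
    constructor
    · rintro ⟨x, hx, rfl⟩ j
      rw [he]; exact abs_le.1 (hx j)
    · intro h
      refine ⟨e.symm y, fun j => ?_, by simp⟩
      rw [← he, LinearEquiv.apply_symm_apply]; exact abs_le.2 (h j)
  have h2 : e '' {x : EuclideanSpace ℝ (Fin d) | ∀ j, x j = -1 ∨ x j = 1} =
      Set.pi Set.univ (fun _ : Fin d => ({-1, 1} : Set ℝ)) := by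
    ext y
    simp only [Set.mem_image, Set.mem_pi, Set.mem_univ, true_imp_iff, Set.mem_insert_iff,
      Set.mem_singleton_iff]
    constructor
    · rintro ⟨x, hx, rfl⟩ j
      rw [he]; exact hx j
    · intro h
      refine ⟨e.symm y, fun j => ?_, by simp⟩
      rw [← he, LinearEquiv.apply_symm_apply]; exact h j
  have h3 : e '' cube d = e '' convexHull ℝ {x : EuclideanSpace ℝ (Fin d) | ∀ j, x j = -1 ∨ x j = 1} := by
    have := (e : EuclideanSpace ℝ (Fin d) →ₗ[ℝ] (Fin d → ℝ)).image_convexHull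
      {x : EuclideanSpace ℝ (Fin d) | ∀ j, x j = -1 ∨ x j = 1}
    simp only [LinearEquiv.coe_coe] at this
    rw [this, h1, h2, convexHull_pi]
  exact (Set.image_injective.2 e.injective) h3

lemma cube_isPolytope (d : ℕ) : IsPolytope (cube d) := by
  refine ⟨⟨_, ?_, cube_eq_hull d⟩, ⟨0, mem_interior_of (by simp)⟩⟩
  let e : EuclideanSpace ℝ (Fin d) ≃ₗ[ℝ] (Fin d → ℝ) := (EuclideanSpace.equiv (Fin d) ℝ).toLinearEquiv
  have hfin : (Set.pi Set.univ (fun _ : Fin d => ({-1, 1} : Set ℝ))).Finite :=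
    Set.Finite.pi fun _ => Set.toFinite _
  refine (hfin.preimage e.injective.injOn).subset ?_
  intro x hx
  simp only [Set.mem_preimage, Set.mem_pi, Set.mem_univ, true_imp_iff, Set.mem_insert_iff,
      Set.mem_singleton_iff]
  exact hx

/-- The sign `1` or `-1` attached to a Boolean. -/
def sgn (a : Bool) : ℝ := if a then 1 else -1

lemma sgn_mul_self (a : Bool) : sgn a * sgn a = 1 := by cases a <;> simp [sgn]

/-- The point with coordinates `sgn (ε j)` on `J` and `0` elsewhere. -/
def pt {d : ℕ} (J : Finset (Fin d)) (ε : Fin d → Bool) : EuclideanSpace ℝ (Fin d) :=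
  WithLp.toLp 2 (fun j => if j ∈ J then sgn (ε j) else 0)

lemma pt_apply {d : ℕ} (J : Finset (Fin d)) (ε : Fin d → Bool) (j : Fin d) :
    pt J ε j = if j ∈ J then sgn (ε j) else 0 := rfl

lemma pt_mem_cube {d : ℕ} (J : Finset (Fin d)) (ε : Fin d → Bool) : pt J ε ∈ cube d := by
  intro j
  rw [pt_apply]
  split_ifs
  · cases ε j <;> simp [sgn]
  · simp

lemma pt_mem_frontier {d : ℕ} (J : Finset (Fin d)) (ε : Fin d → Bool) (hJ : J.Nonempty) :
    pt J ε ∈ frontier (cube d) := by
  refine ⟨subset_closure (pt_mem_cube J ε), fun h => ?_⟩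
  obtain ⟨j, hj⟩ := hJ
  have := abs_lt_of_mem_interior h j
  rw [pt_apply, if_pos hj] at this
  cases hε : ε j <;> simp [hε, sgn] at this

lemma pt_add_mem_cube {d : ℕ} (J : Finset (Fin d)) (ε : Fin d → Bool) (j : Fin d) (hj : j ∉ J)
    (r : ℝ) (hr : |r| ≤ 1) : pt J ε + r • EuclideanSpace.single j (1 : ℝ) ∈ cube d := by
  intro k
  by_cases hk : k = j
  · subst hk
    simp [pt_apply, hj, hr]
  · have := pt_mem_cube J ε k
    simpa [hk] using this

lemma face_contains {d : ℕ} (J : Finset (Fin d)) (ε : Fin d → Bool)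
    (F : Set (EuclideanSpace ℝ (Fin d))) (hF : IsFace (cube d) F) (hb : pt J ε ∈ F)
    (j : Fin d) (hj : j ∉ J) : pt J ε + EuclideanSpace.single j (1 : ℝ) ∈ F := by
  have h1 := pt_add_mem_cube J ε j hj 1 (by simp)
  have h2 := pt_add_mem_cube J ε j hj (-1) (by simp)
  rw [one_smul] at h1
  rcases hF with rfl | ⟨f, c, -, hle, -, rfl⟩
  · exact h1
  · refine ⟨h1, ?_⟩
    have e1 := hle _ h1
    have e2 := hle _ h2
    have e3 := hb.2
    simp only [map_add, map_smul, smul_eq_mul] at e1 e2 ⊢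
    linarith

lemma dim_ge {d : ℕ} (J : Finset (Fin d)) (ε : Fin d → Bool)
    (F : Set (EuclideanSpace ℝ (Fin d))) (hF : IsFace (cube d) F) (hb : pt J ε ∈ F)
    (i : ℕ) (hi : HasDim F i) : d - J.card ≤ i := by
  have hmem : ∀ j : Fin d, j ∉ J →
      EuclideanSpace.single j (1 : ℝ) ∈ (affineSpan ℝ F).direction := by
    intro j hj
    have h1 := face_contains J ε F hF hb j hj
    have := AffineSubspace.vsub_mem_direction (subset_affineSpan ℝ F h1) (subset_affineSpan ℝ F hb)
    simpa using this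
  have hli : LinearIndependent ℝ (fun j : {j : Fin d // j ∉ J} =>
      (EuclideanSpace.single j.1 (1 : ℝ) : EuclideanSpace ℝ (Fin d))) := by
    have := (EuclideanSpace.basisFun (Fin d) ℝ).toBasis.linearIndependent
    have h2 := this.comp (fun j : {j : Fin d // j ∉ J} => j.1) Subtype.val_injective
    have h3 : (fun j : {j : Fin d // j ∉ J} =>
      (EuclideanSpace.single j.1 (1 : ℝ) : EuclideanSpace ℝ (Fin d))) =
      (⇑(EuclideanSpace.basisFun (Fin d) ℝ).toBasis ∘ fun j : {j : Fin d // j ∉ J} => j.1) := by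
      funext j
      simp
    rw [h3]
    exact h2
  have hle : Submodule.span ℝ (Set.range (fun j : {j : Fin d // j ∉ J} =>
      (EuclideanSpace.single j.1 (1 : ℝ) : EuclideanSpace ℝ (Fin d)))) ≤
      (affineSpan ℝ F).direction := by
    rw [Submodule.span_le]
    rintro _ ⟨j, rfl⟩
    exact hmem j.1 j.2
  have h3 := Submodule.finrank_mono hle
  rw [finrank_span_eq_card hli] at h3
  have h4 : Fintype.card {j : Fin d // j ∉ J} = d - J.card := by
    rw [Fintype.card_subtype_compl]
    simp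
  rw [h4] at h3
  exact h3.trans hi.le

lemma pt_mem_X {d i : ℕ} (J : Finset (Fin d)) (ε : Fin d → Bool) (hJ : J.Nonempty)
    (hi : i < d - J.card) : pt J ε ∈ X i (cube d) := by
  refine ⟨pt_mem_frontier J ε hJ, fun F hF hdim hb => ?_⟩
  have := dim_ge J ε F hF hb i hdim
  omega

lemma illum_coord {d : ℕ} (J : Finset (Fin d)) (ε : Fin d → Bool) (s : EuclideanSpace ℝ (Fin d))
    (h : Illuminates (cube d) s (pt J ε)) (j : Fin d) (hj : j ∈ J) : 1 < sgn (ε j) * s j := by
  obtain ⟨⟨t, ht0, hy⟩, hseg⟩ := h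
  by_contra hcon
  push Not at hcon
  have hb : pt J ε j = sgn (ε j) := by rw [pt_apply, if_pos hj]
  have hs2 := sgn_mul_self (ε j)
  rcases le_or_gt t 1 with ht | ht
  · have hmem : s + t • (pt J ε - s) ∈ segment ℝ s (pt J ε) ∩ cube d := by
      refine ⟨?_, interior_subset hy⟩
      rw [segment_eq_image']
      exact ⟨t, ⟨ht0, ht⟩, rfl⟩
    rw [hseg, Set.mem_singleton_iff] at hmem
    rw [hmem] at hy
    have := abs_lt_of_mem_interior hy j
    rw [hb, abs_lt] at this
    nlinarith [this.1, this.2]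
  · have hlt := abs_lt_of_mem_interior hy j
    have e : (s + t • (pt J ε - s)) j = s j + t * (sgn (ε j) - s j) := by
      simp [hb]
    rw [e] at hlt
    have h1 : 1 ≤ sgn (ε j) * (s j + t * (sgn (ε j) - s j)) := by
      have : sgn (ε j) * (s j + t * (sgn (ε j) - s j)) =
        t * (sgn (ε j) * sgn (ε j)) + (1 - t) * (sgn (ε j) * s j) := by ring
      rw [this, hs2]
      nlinarith
    have h2 : |sgn (ε j) * (s j + t * (sgn (ε j) - s j))| < 1 := by
      rw [abs_mul]
      have : |sgn (ε j)| = 1 := by cases ε j <;> simp [sgn]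
      rw [this, one_mul]; exact hlt
    have h3 := (abs_lt.1 h2).2
    linarith

lemma no_oa {E : Type*} {d t : ℕ} (ht : 2 ≤ t) (hd : t + 2 ≤ d) (S : Finset E)
    (σ : E → Fin d → Bool) (hS : S.card ≤ 2 ^ t)
    (hcov : ∀ J : Finset (Fin d), J.card = t → ∀ ε : Fin d → Bool,
      ∃ s ∈ S, ∀ j ∈ J, σ s j = ε j) : False := by
  classical
  -- two members of `S` that agree on `t` coordinates are equal
  have hinj : ∀ J : Finset (Fin d), J.card = t → ∀ s ∈ S, ∀ s' ∈ S,
      (∀ j ∈ J, σ s j = σ s' j) → s = s' := by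
    intro J hJ s hs s' hs' hagree
    have hsurj : Function.Surjective (fun (x : S) => (fun j : J => σ x.1 j.1)) := by
      intro g
      obtain ⟨x, hx, hx'⟩ := hcov J hJ (fun j => if h : j ∈ J then g ⟨j, h⟩ else false)
      refine ⟨⟨x, hx⟩, ?_⟩
      funext j
      have := hx' j.1 j.2
      simpa using this
    have hcard : Fintype.card S ≤ Fintype.card (J → Bool) := by
      simp [hJ]; exact hS
    have hbij : Function.Bijective (fun (x : S) => (fun j : J => σ x.1 j.1)) := by
      rw [Fintype.bijective_iff_surjective_and_card]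
      exact ⟨hsurj, le_antisymm hcard (Fintype.card_le_of_surjective _ hsurj)⟩
    have := hbij.1 (a₁ := ⟨s, hs⟩) (a₂ := ⟨s', hs'⟩) (by funext j; exact hagree j.1 j.2)
    exact congrArg Subtype.val this
  -- the coordinates
  let J0 : Finset (Fin d) := Finset.univ.filter (fun j => j.val < t)
  have hJ0 : J0.card = t := by
    have : J0 = (Finset.univ : Finset (Fin t)).map (Fin.castLEEmb (by omega : t ≤ d)) := by
      ext j
      simp only [J0, Finset.mem_filter, Finset.mem_univ, true_and, Finset.mem_map]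
      constructor
      · intro h; exact ⟨⟨j.1, h⟩, by ext; simp⟩
      · rintro ⟨k, rfl⟩; simp
    rw [this, Finset.card_map]; simp
  let a : Fin d := ⟨0, by omega⟩
  let b : Fin d := ⟨1, by omega⟩
  let p : Fin d := ⟨t, by omega⟩
  let q : Fin d := ⟨t + 1, by omega⟩
  have ha : a ∈ J0 := by simp [J0, a]; omega
  have hb : b ∈ J0 := by simp [J0, b]; omega
  have hp : p ∉ J0 := by simp [J0, p]
  have hq : q ∉ J0 := by simp [J0, q]
  have hab : a ≠ b := by simp [a, b]
  have hpq : p ≠ q := by simp [p, q]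
  obtain ⟨c, hc, hc'⟩ := hcov J0 hJ0 (fun _ => false)
  obtain ⟨c1, hc1, hc1'⟩ := hcov J0 hJ0 (fun j => decide (j = a))
  obtain ⟨c2, hc2, hc2'⟩ := hcov J0 hJ0 (fun j => decide (j = b))
  -- a general exchange step
  have hex : ∀ (x y : E) (hx : x ∈ S) (hy : y ∈ S) (u v : Fin d), u ∈ J0 → v ∉ J0 →
      (∀ j ∈ J0, j ≠ u → σ x j = σ y j) → σ x u ≠ σ y u → σ x v ≠ σ y v := by
    intro x y hx hy u v hu hv hag hne heq
    have hcard : (insert v (J0.erase u)).card = t := by
      rw [Finset.card_insert_of_notMem (by simp [hv]), Finset.card_erase_of_mem hu, hJ0]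
      omega
    have := hinj _ hcard x hx y hy (by
      intro j hj
      rw [Finset.mem_insert, Finset.mem_erase] at hj
      rcases hj with rfl | ⟨h1, h2⟩
      · exact heq
      · exact hag j h2 h1)
    exact hne (by rw [this])
  have h1p : ∀ v, v ∉ J0 → σ c1 v ≠ σ c v := fun v hv =>
    hex c1 c hc1 hc a v ha hv (fun j hj hja => by rw [hc1' j hj, hc' j hj]; simp [hja])
      (by rw [hc1' a ha, hc' a ha]; simp)
  have h2p : ∀ v, v ∉ J0 → σ c2 v ≠ σ c v := fun v hv =>
    hex c2 c hc2 hc b v hb hv (fun j hj hja => by rw [hc2' j hj, hc' j hj]; simp [hja])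
      (by rw [hc2' b hb, hc' b hb]; simp)
  have h12 : ∀ v, v ∉ J0 → σ c1 v = σ c2 v := by
    intro v hv
    have e1 := h1p v hv
    have e2 := h2p v hv
    cases h : σ c v <;> cases h' : σ c1 v <;> cases h'' : σ c2 v <;> simp_all
  have hcard : (insert q (insert p ((J0.erase a).erase b))).card = t := by
    rw [Finset.card_insert_of_notMem (by simp [hq, hpq.symm]),
      Finset.card_insert_of_notMem (by simp [hp]), Finset.card_erase_of_mem (by simp [hb, hab.symm]),
      Finset.card_erase_of_mem ha, hJ0]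
    omega
  have := hinj _ hcard c1 hc1 c2 hc2 (by
    intro j hj
    simp only [Finset.mem_insert, Finset.mem_erase] at hj
    rcases hj with rfl | rfl | ⟨h1, h2, h3⟩
    · exact h12 _ hq
    · exact h12 _ hp
    · rw [hc1' j h3, hc2' j h3]; simp [h1, h2])
  have e1 := hc1' a ha
  have e2 := hc2' a ha
  rw [this, e2] at e1
  simp [hab] at e1

/-- For all `d ≥ 4` and `1 ≤ i ≤ d - 3` there is a `d`-dimensional convex polytope `P` (the cube)
such that no set of at most `2 ^ (d - 1 - i)` points outside `P` illuminates `X i P`. -/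
theorem result : ∀ d i : ℕ, 1 ≤ i → i + 3 ≤ d →
    ∃ P : Set (EuclideanSpace ℝ (Fin d)), IsPolytope P ∧
      ∀ S : Finset (EuclideanSpace ℝ (Fin d)), (∀ s ∈ S, s ∉ P) → S.card ≤ 2 ^ (d - 1 - i) →
        ∃ b ∈ X i P, ∀ s ∈ S, ¬ Illuminates P s b := by
  intro d i hi hid
  refine ⟨cube d, cube_isPolytope d, fun S _ hS => ?_⟩
  by_contra hcon
  push Not at hcon
  refine no_oa (d := d) (t := d - 1 - i) (by omega) (by omega) S
    (fun s j => decide (0 < s j)) hS ?_
  intro J hJ ε
  obtain ⟨s, hs, hill⟩ := hcon (pt J ε) (pt_mem_X J ε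
    (Finset.card_pos.1 (by omega)) (by omega))
  refine ⟨s, hs, fun j hj => ?_⟩
  have := illum_coord J ε s hill j hj
  cases h : ε j
  · simp only [h, sgn] at this
    simp at this
    simp; linarith
  · simp only [h, sgn] at this
    simp at this
    simp; linarith

end Pool.Agent.Results.MP_22e672_co.CubeDisproof
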